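import Mathlib

namespace Pool.Agent.H.MP_c0d803_al

open Subgroup

def word {T : Type} (w : List T) : FreeGroup T := (w.map FreeGroup.of).prod

lemma word_append {T : Type} (u v : List T) : word (u ++ v) = word u * word v := by
  simp [word]

section CF
variable {T : Type} (g : ContextFreeGrammar T)

def Prod' (A : g.NT) : Prop := ∃ w : List T, g.Derives [Symbol.nonterminal A] (w.map Symbol.terminal)

open Classical in
noncomputable def pick : Symbol T g.NT → List T
  | Symbol.terminal t => [t]
  | Symbol.nonterminal A => if h : Prod' g A then h.choose else []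

noncomputable def flat (u : List (Symbol T g.NT)) : List T := u.flatMap (pick g)

def AllProd (u : List (Symbol T g.NT)) : Prop := ∀ A, Symbol.nonterminal A ∈ u → Prod' g A

lemma flat_append (u v : List (Symbol T g.NT)) : flat g (u ++ v) = flat g u ++ flat g v := by
  simp [flat]

lemma flat_term (w : List T) : flat g (w.map Symbol.terminal) = w := by
  induction w with
  | nil => rfl
  | cons a w ih =>
    have : flat g (List.map Symbol.terminal (a :: w)) = a :: flat g (w.map Symbol.terminal) := by
      simp [flat, pick]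
    rw [this, ih]

lemma derives_flat (u : List (Symbol T g.NT)) (h : AllProd g u) :
    g.Derives u ((flat g u).map Symbol.terminal) := by
  induction u with
  | nil => exact Relation.ReflTransGen.refl
  | cons s u ih =>
    have ih' := ih (fun A hA => h A (List.mem_cons_of_mem _ hA))
    have e : flat g (s :: u) = pick g s ++ flat g u := by simp [flat]
    have h1 : g.Derives [s] ((pick g s).map Symbol.terminal) := by
      cases s with
      | terminal t => exact Relation.ReflTransGen.refl
      | nonterminal A =>
        have hA : Prod' g A := h A (List.mem_cons_self ..)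
        have : pick g (Symbol.nonterminal A) = hA.choose := by simp [pick, hA]
        rw [this]; exact hA.choose_spec
    rw [e, List.map_append]
    exact (h1.append_right u).trans (ih'.append_left _)

lemma allProd_of_derives {u : List (Symbol T g.NT)} {w : List T}
    (h : g.Derives u (w.map Symbol.terminal)) : AllProd g u := by
  induction h using Relation.ReflTransGen.head_induction_on with
  | refl => intro A hA; simp at hA
  | head huv _ ih =>
    obtain ⟨r, hr, hrw⟩ := huv
    obtain ⟨p, q, rfl, rfl⟩ := hrw.exists_parts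
    intro A hA
    simp only [List.mem_append, List.mem_singleton] at hA
    rcases hA with (hA | hA) | hA
    · exact ih A (by simp [hA])
    · have : A = r.input := by injection hA
      subst this
      refine ⟨flat g r.output, ?_⟩
      refine ContextFreeGrammar.Produces.trans_derives ⟨r, hr, ContextFreeRule.Rewrites.input_output⟩ ?_
      exact derives_flat g _ (fun B hB => ih B (by simp [hB]))
    · exact ih A (by simp [hA])

theorem cf_fng : (normalClosure (word '' g.language)).IsFinitelyNormallyGenerated := by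
  classical
  set N := normalClosure (word '' (g.language : Set (List T))) with hN
  let C : Set (FreeGroup T) :=
    insert (word (flat g [Symbol.nonterminal g.initial]))
      ((fun r : ContextFreeRule T g.NT =>
        (word (flat g [Symbol.nonterminal r.input]))⁻¹ * word (flat g r.output)) '' g.rules)
  have hC : C.Finite := (g.rules.finite_toSet.image _).insert _
  refine ⟨C ∩ N, hC.inter_of_left _, le_antisymm (normalClosure_le_normal Set.inter_subset_right) ?_⟩
  apply normalClosure_le_normal
  rintro _ ⟨w, hw, rfl⟩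
  have hw' : g.Derives [Symbol.nonterminal g.initial] (w.map Symbol.terminal) := hw
  have inN : ∀ u, g.Derives [Symbol.nonterminal g.initial] u → g.Derives u (w.map Symbol.terminal) →
      word (flat g u) ∈ N := by
    intro u h1 h2
    apply subset_normalClosure
    exact ⟨flat g u, h1.trans (derives_flat g u (allProd_of_derives g h2)), rfl⟩
  have key : ∀ u, g.Derives [Symbol.nonterminal g.initial] u →
      g.Derives u (w.map Symbol.terminal) → word (flat g u) ∈ normalClosure (C ∩ N) := by
    intro u h1
    induction h1 with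
    | refl =>
      intro h2
      exact subset_normalClosure ⟨Set.mem_insert _ _, inN _ Relation.ReflTransGen.refl h2⟩
    | tail h1 huv ih =>
      intro h2
      have h3 := huv.trans_derives h2
      have a1 := inN _ h1 h3
      have a2 := inN _ (h1.tail huv) h2
      have a3 := ih h3
      obtain ⟨r, hr, hrw⟩ := huv
      obtain ⟨p, q, rfl, rfl⟩ := hrw.exists_parts
      simp only [flat_append, word_append] at a1 a2 a3 ⊢
      set P := word (flat g p)
      set Q := word (flat g q)
      set A := word (flat g [Symbol.nonterminal r.input]) with hA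
      set B := word (flat g r.output) with hB
      have b1 : A⁻¹ * B ∈ N := by
        have h5 : (P * A * Q)⁻¹ * (P * B * Q) ∈ N := N.mul_mem (N.inv_mem a1) a2
        have h6 := (inferInstance : N.Normal).conj_mem _ h5 Q
        convert h6 using 1
        group
      have b2 : A⁻¹ * B ∈ normalClosure (C ∩ N) :=
        subset_normalClosure ⟨Set.mem_insert_of_mem _ ⟨r, hr, rfl⟩, b1⟩
      have b3 := (inferInstance : (normalClosure (C ∩ N)).Normal).conj_mem _ b2 Q⁻¹
      have b4 := Subgroup.mul_mem _ a3 b3
      convert b4 using 1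
      group
  have := key _ hw' Relation.ReflTransGen.refl
  rwa [flat_term] at this

end CF

theorem change_gens {D D' G : Type} [Finite D] [Group G] (π : FreeGroup D →* G)
    (φ : FreeGroup D' →* G) (hπ : Function.Surjective π) (hφ : Function.Surjective φ)
    (h : φ.ker.IsFinitelyNormallyGenerated) : π.ker.IsFinitelyNormallyGenerated := by
  obtain ⟨S, hS, hker⟩ := h
  choose a ha using fun d : D' => hπ (φ (FreeGroup.of d))
  choose b hb using fun d : D => hφ (π (FreeGroup.of d))
  let α : FreeGroup D' →* FreeGroup D := FreeGroup.lift a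
  let β : FreeGroup D →* FreeGroup D' := FreeGroup.lift b
  have hα : π.comp α = φ := by ext d; simp [α, ha]
  have hβ : φ.comp β = π := by ext d; simp [β, hb]
  have hα' : ∀ x, π (α x) = φ x := fun x => by rw [← hα]; rfl
  have hβ' : ∀ x, φ (β x) = π x := fun x => by rw [← hβ]; rfl
  let S' : Set (FreeGroup D) :=
    α '' S ∪ Set.range (fun d : D => (FreeGroup.of d)⁻¹ * α (β (FreeGroup.of d)))
  refine ⟨S', (hS.image _).union (Set.finite_range _), le_antisymm ?_ ?_⟩
  · apply normalClosure_le_normal
    rintro _ (⟨s, hs, rfl⟩ | ⟨d, rfl⟩)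
    · have : s ∈ φ.ker := hker ▸ subset_normalClosure hs
      simpa [hα'] using this
    · simp [hα', hβ']
  · intro w hw
    let q := QuotientGroup.mk' (normalClosure S')
    have h1 : q.comp (α.comp β) = q := by
      ext d
      have : (FreeGroup.of d)⁻¹ * α (β (FreeGroup.of d)) ∈ normalClosure S' :=
        subset_normalClosure (Or.inr ⟨d, rfl⟩)
      exact (QuotientGroup.eq.2 this).symm
    have h2 : β w ∈ normalClosure S := by
      rw [hker, MonoidHom.mem_ker, hβ']; exact hw
    have h3 : normalClosure S ≤ (q.comp α).ker := by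
      apply normalClosure_le_normal
      intro s hs
      exact (QuotientGroup.eq_one_iff _).2 (subset_normalClosure (Or.inl ⟨s, hs, rfl⟩))
    have h4 : q w = 1 := by
      rw [← h1]; exact h3 h2
    exact (QuotientGroup.eq_one_iff _).1 h4

section Idx

def attach {T N F : Type} (σ : List F) : Symbol T N → Symbol T (N × List F)
  | Symbol.terminal t => Symbol.terminal t
  | Symbol.nonterminal A => Symbol.nonterminal (A, σ)

def Step {T N F : Type} (R1 : Finset (N × List (Symbol T N))) (R2 : Finset (N × N × F))
    (R3 : Finset (N × F × List (Symbol T N))) (u v : List (Symbol T (N × List F))) : Prop :=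
  ∃ (p q : List (Symbol T (N × List F))) (σ : List F) (A : N),
    (∃ α, (A, α) ∈ R1 ∧ u = p ++ [Symbol.nonterminal (A, σ)] ++ q ∧
      v = p ++ α.map (attach σ) ++ q) ∨
    (∃ B f, (A, B, f) ∈ R2 ∧ u = p ++ [Symbol.nonterminal (A, σ)] ++ q ∧
      v = p ++ [Symbol.nonterminal (B, f :: σ)] ++ q) ∨
    (∃ f α, (A, f, α) ∈ R3 ∧ u = p ++ [Symbol.nonterminal (A, f :: σ)] ++ q ∧
      v = p ++ α.map (attach σ) ++ q)

def IsIndexed {T : Type} (L : Language T) : Prop :=
  ∃ (N F : Type) (S : N) (R1 : Finset (N × List (Symbol T N))) (R2 : Finset (N × N × F))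
    (R3 : Finset (N × F × List (Symbol T N))),
    ∀ w : List T, w ∈ L ↔
      Relation.ReflTransGen (Step R1 R2 R3) [Symbol.nonterminal (S, [])] (w.map Symbol.terminal)

-- letters 0 = a, 1 = t, 2 = T ; nonterminals 0 = S, 1 = S', 2 = X, 3 = Y ; indices true = f
abbrev Sy := Symbol (Fin 3) (Fin 4)
abbrev Sz := Symbol (Fin 3) (Fin 4 × List Bool)

def body : List Sy := [.terminal 0, .nonterminal 2, .terminal 0, .nonterminal 3,
  .terminal 0, .nonterminal 2, .terminal 0, .nonterminal 3]

def R1 : Finset (Fin 4 × List Sy) :=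
  {(0, [.terminal 0, .terminal 0]), (0, [.terminal 1, .terminal 2]), (1, body)}
def R2 : Finset (Fin 4 × Fin 4 × Bool) := {(0, 1, false), (1, 1, true)}
def R3 : Finset (Fin 4 × Bool × List Sy) :=
  {(2, true, [.terminal 1, .nonterminal 2]), (3, true, [.terminal 2, .nonterminal 3]),
    (2, false, []), (3, false, [])}

abbrev Der : List Sz → List Sz → Prop := Relation.ReflTransGen (Step R1 R2 R3)

lemma step_ctx {u v : List Sz} (h : Step R1 R2 R3 u v) (p q : List Sz) :
    Step R1 R2 R3 (p ++ u ++ q) (p ++ v ++ q) := by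
  obtain ⟨p', q', σ, A, h⟩ := h
  refine ⟨p ++ p', q' ++ q, σ, A, ?_⟩
  rcases h with ⟨α, h, rfl, rfl⟩ | ⟨B, f, h, rfl, rfl⟩ | ⟨f, α, h, rfl, rfl⟩
  · exact Or.inl ⟨α, h, by simp, by simp⟩
  · exact Or.inr (Or.inl ⟨B, f, h, by simp, by simp⟩)
  · exact Or.inr (Or.inr ⟨f, α, h, by simp, by simp⟩)

lemma der_ctx {u v : List Sz} (h : Der u v) (p q : List Sz) :
    Der (p ++ u ++ q) (p ++ v ++ q) := by
  induction h with
  | refl => exact Relation.ReflTransGen.refl
  | tail _ h ih => exact ih.tail (step_ctx h p q)

lemma der_append {u v u' v' : List Sz} (h : Der u v) (h' : Der u' v') : Der (u ++ u') (v ++ v') := by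
  have a := der_ctx h [] u'
  have b := der_ctx h' v []
  simp only [List.nil_append, List.append_nil] at a b
  exact a.trans b

def st (n : ℕ) : List Bool := List.replicate n true ++ [false]

lemma der_X (n : ℕ) : Der [.nonterminal (2, st n)] ((List.replicate n 1).map .terminal) := by
  induction n with
  | zero =>
    exact Relation.ReflTransGen.single ⟨[], [], [], 2, Or.inr (Or.inr ⟨false, [], by decide, rfl, rfl⟩)⟩
  | succ n ih =>
    refine Relation.ReflTransGen.head ⟨[], [], st n, 2, Or.inr (Or.inr ⟨true,
      [.terminal 1, .nonterminal 2], by decide, rfl, rfl⟩)⟩ ?_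
    exact der_append (u := [.terminal 1]) Relation.ReflTransGen.refl ih

lemma der_Y (n : ℕ) : Der [.nonterminal (3, st n)] ((List.replicate n 2).map .terminal) := by
  induction n with
  | zero =>
    exact Relation.ReflTransGen.single ⟨[], [], [], 3, Or.inr (Or.inr ⟨false, [], by decide, rfl, rfl⟩)⟩
  | succ n ih =>
    refine Relation.ReflTransGen.head ⟨[], [], st n, 3, Or.inr (Or.inr ⟨true,
      [.terminal 2, .nonterminal 3], by decide, rfl, rfl⟩)⟩ ?_
    exact der_append (u := [.terminal 2]) Relation.ReflTransGen.refl ih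

def half (n : ℕ) : List (Fin 3) := ([0] ++ List.replicate n 1) ++ ([0] ++ List.replicate n 2)
def rel (n : ℕ) : List (Fin 3) := half n ++ half n

lemma der_S' (n : ℕ) : Der [.nonterminal (0, [])] [.nonterminal (1, st n)] := by
  induction n with
  | zero =>
    exact Relation.ReflTransGen.single ⟨[], [], [], 0, Or.inr (Or.inl ⟨1, false, by decide, rfl, rfl⟩)⟩
  | succ n ih =>
    exact ih.tail ⟨[], [], st n, 1, Or.inr (Or.inl ⟨1, true, by decide, rfl, rfl⟩)⟩

lemma der_rel (n : ℕ) : Der [.nonterminal (0, [])] ((rel n).map .terminal) := by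
  refine (der_S' n).trans ?_
  refine Relation.ReflTransGen.head ⟨[], [], st n, 1, Or.inl ⟨body, by decide, rfl, rfl⟩⟩ ?_
  have h0 : Der [.terminal 0] (([0] : List (Fin 3)).map .terminal) := Relation.ReflTransGen.refl
  have h := der_append (der_append h0 (der_X n)) (der_append h0 (der_Y n))
  have h2 := der_append h h
  simp only [rel, half, List.map_append]
  exact h2

def L0 : Language (Fin 3) := {w | w = [0, 0] ∨ w = [1, 2] ∨ ∃ n, w = rel n}

def len : List Bool → ℕ
  | true :: σ => len σ + 1
  | _ => 0

def Y : Sz → Language (Fin 3)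
  | .terminal t => {[t]}
  | .nonterminal (A, σ) =>
    if A = 0 then L0 else if A = 1 then {w | ∃ n, w = rel n}
    else if A = 2 then {List.replicate (len σ) 1} else {List.replicate (len σ) 2}

def YY (u : List Sz) : Language (Fin 3) := (u.map Y).prod

lemma YY_append (u v : List Sz) : YY (u ++ v) = YY u * YY v := by simp [YY]

lemma sing_mul (u v : List (Fin 3)) :
    (({u} : Language (Fin 3)) * ({v} : Language (Fin 3))) = ({u ++ v} : Language (Fin 3)) := by
  ext w
  rw [Language.mem_mul]
  constructor
  · rintro ⟨a, ha, b, hb, rfl⟩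
    have ha' : a = u := ha
    have hb' : b = v := hb
    subst ha' hb'
    rfl
  · intro h
    have h' : w = u ++ v := h
    exact ⟨u, rfl, v, rfl, h'.symm⟩

lemma YY_ctx {a b : List Sz} (h : YY b ≤ YY a) (p q : List Sz) :
    YY (p ++ b ++ q) ≤ YY (p ++ a ++ q) := by
  simp only [YY_append]
  exact mul_le_mul' (mul_le_mul' le_rfl h) le_rfl

lemma YY_step {u v : List Sz} (h : Step R1 R2 R3 u v) : YY v ≤ YY u := by
  obtain ⟨p, q, σ, A, h⟩ := h
  rcases h with ⟨α, h, rfl, rfl⟩ | ⟨B, f, h, rfl, rfl⟩ | ⟨f, α, h, rfl, rfl⟩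
  · apply YY_ctx
    simp only [R1, Finset.mem_insert, Finset.mem_singleton, Prod.mk.injEq] at h
    rcases h with ⟨rfl, rfl⟩ | ⟨rfl, rfl⟩ | ⟨rfl, rfl⟩
    · intro w hw
      simp [YY, Y, attach, sing_mul] at hw ⊢
      exact Or.inl hw
    · intro w hw
      simp [YY, Y, attach, sing_mul] at hw ⊢
      exact Or.inr (Or.inl hw)
    · intro w hw
      simp [YY, Y, attach, sing_mul, body] at hw ⊢
      refine ⟨len σ, ?_⟩
      have hw' : w = _ := hw
      rw [hw']
      simp [rel, half]
  · apply YY_ctx
    simp only [R2, Finset.mem_insert, Finset.mem_singleton, Prod.mk.injEq] at h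
    rcases h with ⟨rfl, rfl, rfl⟩ | ⟨rfl, rfl, rfl⟩
    · intro w hw
      simp [YY, Y] at hw ⊢
      exact Or.inr (Or.inr hw)
    · intro w hw
      simp [YY, Y] at hw ⊢
      exact hw
  · apply YY_ctx
    simp only [R3, Finset.mem_insert, Finset.mem_singleton, Prod.mk.injEq] at h
    rcases h with ⟨rfl, rfl, rfl⟩ | ⟨rfl, rfl, rfl⟩ | ⟨rfl, rfl, rfl⟩ | ⟨rfl, rfl, rfl⟩
    · intro w hw
      simp [YY, Y, attach, sing_mul, len] at hw ⊢
      exact hw
    · intro w hw
      simp [YY, Y, attach, sing_mul, len] at hw ⊢
      exact hw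
    · intro w hw
      simp [YY, Y, len] at hw ⊢
      exact hw
    · intro w hw
      simp [YY, Y, len] at hw ⊢
      exact hw

lemma YY_term (w : List (Fin 3)) : w ∈ YY (w.map .terminal) := by
  induction w with
  | nil => simp [YY]
  | cons a w ih =>
    have : YY ((a :: w).map .terminal) = {[a]} * YY (w.map .terminal) := by simp [YY, Y]
    rw [this, Language.mem_mul]
    exact ⟨[a], rfl, w, ih, rfl⟩

lemma sound {w : List (Fin 3)} (h : Der [.nonterminal (0, [])] (w.map .terminal)) : w ∈ L0 := by
  have key : ∀ v, Der [.nonterminal (0, [])] v → YY v ≤ YY [.nonterminal (0, [])] := by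
    intro v hv
    induction hv with
    | refl => exact le_rfl
    | tail _ h ih => exact (YY_step h).trans ih
  have := key _ h (YY_term w)
  simp only [YY, Y, List.map_cons, List.map_nil, List.prod_cons, List.prod_nil, mul_one] at this
  exact this

theorem L0_indexed : IsIndexed L0 := by
  refine ⟨Fin 4, Bool, 0, R1, R2, R3, fun w => ⟨?_, sound⟩⟩
  rintro (rfl | rfl | ⟨n, rfl⟩)
  · exact Relation.ReflTransGen.single ⟨[], [], [], 0, Or.inl ⟨[.terminal 0, .terminal 0], by decide, rfl, rfl⟩⟩
  · exact Relation.ReflTransGen.single ⟨[], [], [], 0, Or.inl ⟨[.terminal 1, .terminal 2], by decide, rfl, rfl⟩⟩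
  · exact der_rel n

end Idx

section NFP

def sh : Equiv.Perm ℤ := Equiv.addRight 1

def ψ (M : ℕ) : FreeGroup (Fin 3) →* Equiv.Perm ℤ :=
  FreeGroup.lift ![Equiv.swap 0 (M : ℤ), sh, sh⁻¹]

lemma sh_pow (n : ℕ) (x : ℤ) : (sh ^ n) x = x + n := by
  induction n generalizing x with
  | zero => simp
  | succ n ih => rw [pow_succ, Equiv.Perm.mul_apply, ih]; simp [sh]; ring

lemma psi_half (M n : ℕ) :
    ψ M (word (half n)) = Equiv.swap 0 (M : ℤ) * Equiv.swap (n : ℤ) (M + n) := by
  have : Equiv.swap (n : ℤ) (M + n) = sh ^ n * Equiv.swap 0 (M : ℤ) * (sh ^ n)⁻¹ := by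
    rw [← Equiv.swap_apply_apply, sh_pow, sh_pow]; simp
  rw [this]
  simp [half, word, ψ, mul_assoc]

lemma psi_rel (M n : ℕ) (h : n ≠ M) : ψ M (word (rel n)) = 1 := by
  rw [rel, word_append, map_mul, psi_half]
  ext x
  simp only [Equiv.Perm.mul_apply, Equiv.swap_apply_def, Equiv.Perm.one_apply]
  have h' : (n : ℤ) ≠ M := by exact_mod_cast h
  split_ifs <;> omega

lemma psi_rel_ne (M : ℕ) (h : 0 < M) : ψ M (word (rel M)) ≠ 1 := by
  rw [rel, word_append, map_mul, psi_half]
  intro hh
  have := congrArg (fun e : Equiv.Perm ℤ => e 0) hh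
  simp only [Equiv.Perm.mul_apply, Equiv.swap_apply_def, Equiv.Perm.one_apply] at this
  split_ifs at this <;> omega

theorem not_fng : ¬ (normalClosure (word '' (L0 : Set (List (Fin 3))))).IsFinitelyNormallyGenerated := by
  rintro ⟨S, hS, hker⟩
  let K : Subgroup (FreeGroup (Fin 3)) :=
    { carrier := {w | ∀ᶠ M in Filter.atTop, ψ M w = 1}
      one_mem' := by simp
      mul_mem' := by
        intro a b ha hb
        filter_upwards [ha, hb] with M h1 h2
        rw [map_mul, h1, h2, one_mul]
      inv_mem' := by
        intro a ha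
        filter_upwards [ha] with M h1
        rw [map_inv, h1, inv_one] }
  haveI : K.Normal := ⟨by
    intro a ha g
    filter_upwards [ha] with M h1
    simp [h1]⟩
  have h1 : normalClosure (word '' (L0 : Set (List (Fin 3)))) ≤ K := by
    apply normalClosure_le_normal
    rintro _ ⟨w, (rfl | rfl | ⟨n, rfl⟩), rfl⟩
    · exact Filter.Eventually.of_forall fun M => by simp [word, ψ]
    · exact Filter.Eventually.of_forall fun M => by simp [word, ψ]
    · filter_upwards [Filter.eventually_gt_atTop n] with M hM
      exact psi_rel M n hM.ne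
  have h2 : ∀ᶠ M in Filter.atTop, ∀ s ∈ S, ψ M s = 1 :=
    (Filter.eventually_all_finite hS).2 fun s hs => h1 (hker ▸ subset_normalClosure hs)
  obtain ⟨M, hM, hM0⟩ := (h2.and (Filter.eventually_gt_atTop 0)).exists
  have h3 : normalClosure S ≤ (ψ M).ker := normalClosure_le_normal hM
  apply psi_rel_ne M hM0
  apply h3
  rw [hker]
  exact subset_normalClosure ⟨rel M, Or.inr (Or.inr ⟨M, rfl⟩), rfl⟩

end NFP

theorem main : ∃ (D : Type) (_ : Finite D) (L : Language D), IsIndexed L ∧
    ∀ (D' : Type) [Finite D'] (L' : Language D'), L'.IsContextFree →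
      IsEmpty (PresentedGroup (word '' (L : Set (List D))) ≃*
        PresentedGroup (word '' (L' : Set (List D')))) := by
  refine ⟨Fin 3, inferInstance, L0, L0_indexed, ?_⟩
  rintro D' _ L' ⟨g, rfl⟩
  refine ⟨fun e => not_fng ?_⟩
  have h := change_gens (PresentedGroup.mk (word '' (L0 : Set (List (Fin 3)))))
    (e.symm.toMonoidHom.comp (PresentedGroup.mk _)) (PresentedGroup.mk_surjective _)
    (e.symm.surjective.comp (PresentedGroup.mk_surjective _)) (by
      have : (e.symm.toMonoidHom.comp (PresentedGroup.mk _)).ker =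
          normalClosure (word '' (g.language : Set (List D'))) := by
        ext x
        rw [MonoidHom.mem_ker, ← PresentedGroup.mk_eq_one_iff]
        simp
      rw [this]; exact cf_fng g)
  have e2 : (PresentedGroup.mk (word '' (L0 : Set (List (Fin 3))))).ker =
      normalClosure (word '' (L0 : Set (List (Fin 3)))) := by
    ext x
    rw [MonoidHom.mem_ker, PresentedGroup.mk_eq_one_iff]
  rwa [e2] at h

end Pool.Agent.H.MP_c0d803_al
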